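import Pool.Agent.R575.QR.CF
import Pool.Agent.R575.QR.Low
import Pool.Agent.R575.QR.Enc

set_option autoImplicit false

namespace Pool.Agent.Results.MP_2d18ab_lc.NonGeneratorAboveQrt

open Pool.Agent.Helper178.Idx (Run Run_append Run_nfa)
open Pool.Agent.Helper288.Cone (InCone)
open Pool.Agent.R575

/-- A finite transducer: finitely many states and finitely many transitions, each of them reading
a word over `X` and writing a word over `Y`. -/
structure Transducer (X Y : Type) where
  σ : Type
  fin : Finite σ
  trans : Set (σ × List X × List Y × σ)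
  finTrans : trans.Finite
  start : Set σ
  accept : Set σ

/-- Paths of a transducer with their input and output words. -/
inductive Transducer.Path {X Y : Type} (T : Transducer X Y) : T.σ → List X → List Y → T.σ → Prop
  | nil (p : T.σ) : Transducer.Path T p [] [] p
  | cons (p q r : T.σ) (x : List X) (y : List Y) (u : List X) (v : List Y) :
      (p, x, y, q) ∈ T.trans → Transducer.Path T q u v r → Transducer.Path T p (x ++ u) (y ++ v) r

/-- The rational transduction computed by a transducer. -/
def Transducer.Rel {X Y : Type} (T : Transducer X Y) (u : List X) (v : List Y) : Prop :=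
  ∃ p ∈ T.start, ∃ q ∈ T.accept, T.Path p u v q

/-- `InT L N` : the language `N` is the image of `L` under a rational transduction, that is, `N`
belongs to the principal rational cone `T(L)`. -/
def InT {X Y : Type} (L : Language X) (N : Language Y) : Prop :=
  ∃ T : Transducer X Y, ∀ v, v ∈ N ↔ ∃ u ∈ L, T.Rel u v

/-- A context-free grammar is linear when every right-hand side contains at most one
nonterminal. -/
def LinearGrammar {X : Type} (G : ContextFreeGrammar X) : Prop :=
  ∀ r ∈ G.rules, (∃ u : List X, r.output = u.map Symbol.terminal) ∨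
    ∃ (u : List X) (B : G.NT) (v : List X),
      r.output = u.map Symbol.terminal ++ Symbol.nonterminal B :: v.map Symbol.terminal

/-- Linear languages. -/
def IsLinear {X : Type} (K : Language X) : Prop :=
  ∃ G : ContextFreeGrammar X, LinearGrammar G ∧ G.language = K

/-- Substitution: every letter `x` of a word of `K` is replaced by a word of `s x`. -/
def subst {X Y : Type} (K : Language X) (s : X → Language Y) : Language Y :=
  {w | ∃ u ∈ K, w ∈ (u.map s).prod}

/-- The quasi-rational languages (over finite alphabets): the smallest family that contains the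
linear languages and is closed under substitution. -/
inductive Qrt : (Y : Type) → Language Y → Prop
  | linear (Y : Type) (hY : Finite Y) (K : Language Y) : IsLinear K → Qrt Y K
  | subst (X Y : Type) (hX : Finite X) (hY : Finite Y) (K : Language X) (s : X → Language Y) :
      Qrt X K → (∀ x, Qrt Y (s x)) → Qrt Y (subst K s)

theorem Qrt.toQR {Y : Type} {K : Language Y} (h : Qrt Y K) : QR.Qrt Y K := by
  induction h with
  | linear Y hY K hK => exact .linear Y hY K hK
  | subst X Y hX hY K s _ _ ih1 ih2 => exact .subst X Y hX hY K s ih1 ih2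

/-- From the form of Nivat to a transducer. -/
theorem inT_of_inCone {X Y : Type} {L : Language X} {N : Language Y} (h : InCone L N) :
    InT L N := by
  obtain ⟨Z, hZ, h, g, R, ⟨σ, hσ, M, hM⟩, rfl⟩ := h
  let T : Transducer X Y :=
    { σ := σ
      fin := inferInstance
      trans := Set.range fun t : σ × Z => (t.1, h t.2, g t.2, M.step t.1 t.2)
      finTrans := Set.finite_range _
      start := {M.start}
      accept := M.accept }
  refine ⟨T, fun v => ?_⟩
  have h1 : ∀ (z : List Z) (p : σ), T.Path p (z.flatMap h) (z.flatMap g) (M.evalFrom p z) := by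
    intro z
    induction z with
    | nil => intro p; exact Transducer.Path.nil (T := T) p
    | cons a z ih =>
      intro p
      exact Transducer.Path.cons (T := T) p (M.step p a) _ (h a) (g a) _ _ ⟨(p, a), rfl⟩ (ih _)
  have h2 : ∀ (p q : T.σ) (u : List X) (v : List Y), T.Path p u v q →
      ∃ z : List Z, z.flatMap h = u ∧ z.flatMap g = v ∧ M.evalFrom p z = q := by
    intro p q u v hp
    induction hp with
    | nil p => exact ⟨[], rfl, rfl, rfl⟩
    | cons p q r x y u v ht _ ih =>
      obtain ⟨⟨p', a⟩, ha⟩ := ht
      obtain ⟨z, h3, h4, h5⟩ := ih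
      simp only [Prod.mk.injEq] at ha
      obtain ⟨rfl, rfl, rfl, rfl⟩ := ha
      exact ⟨a :: z, by simp [h3], by simp [h4], h5⟩
  constructor
  · rintro ⟨z, hz, h3, h4⟩
    refine ⟨_, h3, M.start, rfl, M.evalFrom M.start z, ?_, ?_⟩
    · rw [← hM] at hz; exact hz
    · rw [← h4]; exact h1 z M.start
  · rintro ⟨u, hu, p, hp, q, hq, hpath⟩
    obtain ⟨z, rfl, h4, h5⟩ := h2 p q u v hpath
    have hp' : p = M.start := hp
    subst hp'
    refine ⟨z, ?_, hu, h4⟩
    rw [← hM]
    show M.evalFrom M.start z ∈ M.accept
    rw [h5]
    exact hq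

/-- From a transducer to the form of Nivat. -/
theorem inCone_of_inT {X Y : Type} {L : Language X} {N : Language Y} (h : InT L N) :
    InCone L N := by
  classical
  obtain ⟨T, hT⟩ := h
  have hfin := T.fin
  have hfin2 := T.finTrans.to_subtype
  have : Fintype T.σ := Fintype.ofFinite _
  have hZ : Fintype T.trans := Fintype.ofFinite _
  let st : T.σ → T.trans → T.σ → Prop := fun p z q => z.1.1 = p ∧ z.1.2.2.2 = q
  let M : NFA T.trans T.σ :=
    { step := fun p z => {q | st p z q}
      start := T.start
      accept := T.accept }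
  have hreg : M.accepts.IsRegular := by
    rw [← NFA.toDFA_correct]
    exact ⟨_, inferInstance, _, rfl⟩
  refine ⟨T.trans, hZ, fun z => z.1.2.1, fun z => z.1.2.2.1, M.accepts, hreg, ?_⟩
  have h1 : ∀ (z : List T.trans) (p q : T.σ), Run st p z q →
      T.Path p (z.flatMap fun z => z.1.2.1) (z.flatMap fun z => z.1.2.2.1) q := by
    intro z
    induction z with
    | nil =>
      intro p q h
      have h' : p = q := h
      subst h'
      exact .nil p
    | cons a z ih =>
      rintro p q ⟨r, ⟨rfl, rfl⟩, h⟩
      exact .cons _ _ _ _ _ _ _ a.2 (ih _ _ h)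
  have h2 : ∀ (p q : T.σ) (u : List X) (v : List Y), T.Path p u v q →
      ∃ z : List T.trans, Run st p z q ∧ (z.flatMap fun z => z.1.2.1) = u ∧
        (z.flatMap fun z => z.1.2.2.1) = v := by
    intro p q u v hp
    induction hp with
    | nil p => exact ⟨[], rfl, rfl, rfl⟩
    | cons p q r x y u v ht _ ih =>
      obtain ⟨z, h3, h4, h5⟩ := ih
      exact ⟨⟨_, ht⟩ :: z, ⟨q, ⟨rfl, rfl⟩, h3⟩, by simp [h4], by simp [h5]⟩
  ext v
  rw [hT]
  constructor
  · rintro ⟨u, hu, p, hp, q, hq, hpath⟩
    obtain ⟨z, h3, rfl, h5⟩ := h2 p q u v hpath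
    exact ⟨z, ⟨q, hq, (Run_nfa M z _ q).mpr ⟨p, hp, h3⟩⟩, hu, h5⟩
  · rintro ⟨z, ⟨q, hq, hz⟩, hu, rfl⟩
    obtain ⟨p, hp, h3⟩ := (Run_nfa M z _ q).mp hz
    exact ⟨_, hu, p, hp, q, hq, h1 z p q h3⟩

/-- There is a context-free language `L` such that every quasi-rational language is the image of
`L` under a rational transduction, while some context-free language is not: the principal rational
cone of `L` contains `Qrt` and is not the family of all context-free languages. -/
theorem result : ∃ (X : Type) (_ : Fintype X) (L : Language X), L.IsContextFree ∧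
    (∀ (Y : Type) (Q : Language Y), Qrt Y Q → InT L Q) ∧
    ∃ (Y : Type) (_ : Fintype Y) (N : Language Y), N.IsContextFree ∧ ¬ InT L N := by
  refine ⟨QR.Lt, inferInstance, QR.L, QR.L_contextFree, ?_, QR.Lt, inferInstance, {w | QR.E w},
    QR.E_contextFree, ?_⟩
  · intro Y Q hQ
    obtain ⟨hY, G, rfl⟩ := hQ.toQR.exists_NG
    exact inT_of_inCone (QR.NG.inCone G)
  · intro h
    obtain ⟨T, hT⟩ := (inCone_of_inT h).exists_tr
    exact QR.not_inCone T hT

end Pool.Agent.Results.MP_2d18ab_lc.NonGeneratorAboveQrt
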